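import Pool.Agent.Helper61.QS.GoalsG

/-!
# Project QS, packet G2: O'Neill's identity at one point
-/

set_option autoImplicit false

open Set Filter Topology

namespace Pool.Agent.Helper62.QS

open Pool.Agent.Helper61.QS

section lemmas

variable {F F1 F2 E : Type} [NormedAddCommGroup F] [NormedSpace ℝ F]
  [NormedAddCommGroup F1] [NormedSpace ℝ F1]
  [NormedAddCommGroup F2] [NormedSpace ℝ F2] [NormedAddCommGroup E] [NormedSpace ℝ E]

theorem fderiv_fst (f : F1 → ℝ) (y : F1 × F2) (hf : DifferentiableAt ℝ f y.1) (p : F1 × F2) :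
    fderiv ℝ (fun y : F1 × F2 => f y.1) y p = fderiv ℝ f y.1 p.1 := by
  have h := hf.hasFDerivAt.comp y (hasFDerivAt_fst (𝕜 := ℝ) (E := F1) (F := F2) (p := y))
  have h' : HasFDerivAt (fun y : F1 × F2 => f y.1)
    ((fderiv ℝ f y.1).comp (ContinuousLinearMap.fst ℝ F1 F2)) y := h
  rw [h'.fderiv]
  rfl

theorem diff_fderiv (f : F → ℝ) (z b : F) (hf : ContDiffAt ℝ 2 f z) :
    DifferentiableAt ℝ (fun y => fderiv ℝ f y b) z := by
  have h1 : ContDiffAt ℝ 1 (fderiv ℝ f) z := hf.fderiv_right (by norm_num)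
  exact (h1.differentiableAt (by norm_num)).clm_apply (differentiableAt_const b)

theorem ev_diff (f : F → ℝ) (z : F) (hf : ContDiffAt ℝ 2 f z) :
    ∀ᶠ y in 𝓝 z, DifferentiableAt ℝ f y := by
  filter_upwards [hf.eventually (by norm_num)] with y hy
  exact hy.differentiableAt (by norm_num)

theorem dd_fst (f : F1 → ℝ) (x : F1) (w : F2) (hf : ContDiffAt ℝ 2 f x) (p q : F1 × F2) :
    dd (fun y : F1 × F2 => f y.1) (x, w) p q = dd f x p.1 q.1 := by
  unfold dd
  have h1 : (fun y : F1 × F2 => fderiv ℝ (fun y : F1 × F2 => f y.1) y q) =ᶠ[𝓝 (x, w)]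
      fun y => (fun x => fderiv ℝ f x q.1) y.1 := by
    have h2 : ∀ᶠ y : F1 × F2 in 𝓝 (x, w), DifferentiableAt ℝ f y.1 :=
      (continuous_fst.tendsto (x, w)).eventually (ev_diff f x hf)
    filter_upwards [h2] with y hy
    exact fderiv_fst f y hy q
  rw [h1.fderiv_eq]
  exact fderiv_fst (fun x => fderiv ℝ f x q.1) (x, w) (diff_fderiv f x q.1 hf) p

theorem dd_add (f g : F → ℝ) (z a b : F) (hf : ContDiffAt ℝ 2 f z) (hg : ContDiffAt ℝ 2 g z) :
    dd (fun y => f y + g y) z a b = dd f z a b + dd g z a b := by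
  unfold dd
  have h1 : (fun y => fderiv ℝ (fun y => f y + g y) y b) =ᶠ[𝓝 z]
      fun y => fderiv ℝ f y b + fderiv ℝ g y b := by
    filter_upwards [ev_diff f z hf, ev_diff g z hg] with y h2 h3
    rw [fderiv_fun_add h2 h3]
    rfl
  rw [h1.fderiv_eq, fderiv_fun_add (diff_fderiv f z b hf) (diff_fderiv g z b hg)]
  rfl

theorem fderiv_prod (γ : F → E →L[ℝ] E →L[ℝ] ℝ) (P Q : F → E) (z a : F)
    (hγ : DifferentiableAt ℝ γ z) (hP : DifferentiableAt ℝ P z) (hQ : DifferentiableAt ℝ Q z)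
    (h0 : P z = 0) :
    fderiv ℝ (fun y => γ y (P y) (Q y)) z a = γ z (fderiv ℝ P z a) (Q z) := by
  have h := (hγ.hasFDerivAt.clm_apply hP.hasFDerivAt).clm_apply hQ.hasFDerivAt
  rw [h.fderiv]
  simp [h0]

end lemmas

theorem goalG2 : G_G1 → G_G2 := by
  intro hG1 F1 F2 E _ _ _ _ _ _ h γ N x w a b K hh hγ hN hN0 hNy hsym hK
  obtain ⟨cab, caa, cbb, hcab, hcaa, hcbb, hKe⟩ := hK
  set z : F1 × F2 := (x, w) with hz
  obtain ⟨g, hg⟩ : ∃ g : F1 × F2 → (F1 × F2) →L[ℝ] (F1 × F2) →L[ℝ] ℝ,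
      g = fun z => (h z.1).bilinearComp (ContinuousLinearMap.fst ℝ F1 F2)
      (ContinuousLinearMap.fst ℝ F1 F2) + (γ z).bilinearComp (N z) (N z) := ⟨_, rfl⟩
  rw [← hg]
  have hgv : ∀ y p q, g y p q = h y.1 p.1 q.1 + γ y (N y p) (N y q) := by
    intro y p q
    rw [hg]
    rfl
  -- the operator `D`
  obtain ⟨D, hD⟩ : ∃ D : F1 → F1 → E, ∀ u v, D u v = (fderiv ℝ N z (u, 0)) (v, 0) :=
    ⟨fun u v => (fderiv ℝ N z (u, 0)) (v, 0), fun _ _ => rfl⟩
  rw [← hD, ← hD]
  have hNd : DifferentiableAt ℝ N z := hN.differentiableAt (by norm_num)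
  have hγd : DifferentiableAt ℝ γ z := hγ.differentiableAt (by norm_num)
  have hNp : ∀ p : F1 × F2, DifferentiableAt ℝ (fun y => N y p) z := fun p =>
    hNd.clm_apply (differentiableAt_const p)
  have hNp2 : ∀ p : F1 × F2, ContDiffAt ℝ 2 (fun y => N y p) z := fun p =>
    hN.clm_apply contDiffAt_const
  have hND : ∀ u v : F1, fderiv ℝ (fun y => N y (v, 0)) z (u, 0) = D u v := by
    intro u v
    rw [hD]
    have h1 := hNd.hasFDerivAt.clm_apply (hasFDerivAt_const ((v, 0) : F1 × F2) z)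
    rw [h1.fderiv]
    simp
  have hh2 : ∀ u v : F1, ContDiffAt ℝ 2 (fun x => h x u v) x := fun u v =>
    (hh.clm_apply contDiffAt_const).clm_apply contDiffAt_const
  have hhf : ∀ u v : F1, ContDiffAt ℝ 2 (fun y : F1 × F2 => h y.1 u v) z := fun u v =>
    (hh2 u v).comp z contDiffAt_fst
  have hγ2 : ∀ p q : F1 × F2, ContDiffAt ℝ 2 (fun y => γ y (N y p) (N y q)) z := fun p q =>
    (hγ.clm_apply (hNp2 p)).clm_apply (hNp2 q)
  -- first derivatives
  have f1 : ∀ (u v : F1) (q : F1 × F2), fderiv ℝ (fun y => g y (v, 0) q) z (u, 0) =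
      fderiv ℝ (fun x => h x v q.1) x u + γ z (D u v) (N z q) := by
    intro u v q
    have e1 : (fun y => g y (v, 0) q) =
        fun y => (fun y : F1 × F2 => h y.1 v q.1) y + γ y (N y (v, 0)) (N y q) := by
      funext y
      rw [hgv]
    rw [e1, fderiv_fun_add ((hhf v q.1).differentiableAt (by norm_num))
      ((hγ2 (v, 0) q).differentiableAt (by norm_num)), ContinuousLinearMap.add_apply,
      fderiv_prod γ (fun y => N y (v, 0)) (fun y => N y q) z (u, 0) hγd (hNp _) (hNp _) (hN0 v),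
      hND]
    congr 1
    exact fderiv_fst (fun x => h x v q.1) z ((hh2 v q.1).differentiableAt (by norm_num)) (u, 0)
  have f2 : ∀ (u v : F1) (q : F1 × F2), fderiv ℝ (fun y => g y (u, 0) (v, 0)) z q =
      fderiv ℝ (fun x => h x u v) x q.1 := by
    intro u v q
    have e1 : (fun y => g y (u, 0) (v, 0)) =
        fun y => (fun y : F1 × F2 => h y.1 u v) y + γ y (N y (u, 0)) (N y (v, 0)) := by
      funext y
      rw [hgv]
    have h0 := (hG1 (F1 × F2) E γ (fun y => N y (u, 0)) (fun y => N y (v, 0)) z hγ (hNp2 _)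
      (hNp2 _) (hN0 u) (hN0 v)).1 q
    rw [e1, fderiv_fun_add ((hhf u v).differentiableAt (by norm_num))
      ((hγ2 (u, 0) (v, 0)).differentiableAt (by norm_num)), ContinuousLinearMap.add_apply,
      h0, add_zero]
    exact fderiv_fst (fun x => h x u v) z ((hh2 u v).differentiableAt (by norm_num)) q
  have hGam : ∀ (u v : F1) (q : F1 × F2), Gam g z (u, 0) (v, 0) q =
      Gam h x u v q.1 + (γ z (D u v) (N z q) + γ z (D v u) (N z q)) / 2 := by
    intro u v q
    unfold Gam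
    rw [f1, f1, f2]
    ring
  -- second derivatives
  have s1 : ∀ (u v c d : F1), dd (fun y => g y (u, 0) (v, 0)) z (c, 0) (d, 0) =
      dd (fun x => h x u v) x c d + (γ z (D c u) (D d v) + γ z (D d u) (D c v)) := by
    intro u v c d
    have e1 : (fun y => g y (u, 0) (v, 0)) =
        fun y => (fun y : F1 × F2 => h y.1 u v) y + γ y (N y (u, 0)) (N y (v, 0)) := by
      funext y
      rw [hgv]
    have h0 := (hG1 (F1 × F2) E γ (fun y => N y (u, 0)) (fun y => N y (v, 0)) z hγ (hNp2 _)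
      (hNp2 _) (hN0 u) (hN0 v)).2 (c, 0) (d, 0)
    rw [hND, hND, hND, hND] at h0
    rw [e1, dd_add _ _ z _ _ (hhf u v) (hγ2 (u, 0) (v, 0)), h0]
    congr 1
    exact dd_fst (fun x => h x u v) x w (hh2 u v) (c, 0) (d, 0)
  -- the vectors
  have hNq : ∀ (c : F1) (y : F2), N z (c, y) = N z (0, y) := by
    intro c y
    have : ((c, y) : F1 × F2) = (c, 0) + (0, y) := by simp
    rw [this, map_add, hN0, zero_add]
  have hy : ∀ u v : F1, ∃ y : F2, N z (0, y) = D u v := by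
    intro u v
    obtain ⟨y, hy⟩ := hNy u v
    exact ⟨y, by rw [hy, hD]⟩
  obtain ⟨yab1, hyab1⟩ := hy a b
  obtain ⟨yab2, hyab2⟩ := hy b a
  obtain ⟨yaa, hyaa⟩ := hy a a
  obtain ⟨ybb, hybb⟩ := hy b b
  have hyab : N z (0, (1 / 2 : ℝ) • (yab1 + yab2)) = (1 / 2 : ℝ) • (D a b + D b a) := by
    have : ((0, (1 / 2 : ℝ) • (yab1 + yab2)) : F1 × F2) =
        (1 / 2 : ℝ) • ((0, yab1) + (0, yab2)) := by simp
    rw [this, map_smul, map_add, hyab1, hyab2]
  have hs : γ z (D a b) (D b a) = γ z (D b a) (D a b) := by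
    rw [← hyab1, ← hyab2]
    exact hsym _ _
  refine ⟨(cab, (1 / 2 : ℝ) • (yab1 + yab2)), (caa, yaa), (cbb, ybb), ?_, ?_, ?_, ?_⟩
  · intro q
    rw [hGam, hgv, hNq, hyab, hcab]
    simp only [map_smul, map_add, ContinuousLinearMap.smul_apply, ContinuousLinearMap.add_apply,
      smul_eq_mul]
    ring
  · intro q
    rw [hGam, hgv, hNq, hyaa, hcaa]
    ring
  · intro q
    rw [hGam, hgv, hNq, hybb, hcbb]
    ring
  · rw [s1, s1, s1, hgv, hgv, hNq cab, hyab, hNq caa, hyaa, hNq cbb, hybb, hKe]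
    simp only [map_smul, map_add, map_sub, ContinuousLinearMap.smul_apply,
      ContinuousLinearMap.add_apply, ContinuousLinearMap.sub_apply, smul_eq_mul, hs]
    ring

end Pool.Agent.Helper62.QS
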